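import Pool.Agent.Helper37.FL2.MapW
import Pool.Agent.Helper43.FL2.Edge

/-!
# FL2-C1b: edge lifting for the frames `VFr T`
-/

open CategoryTheory MonoidalCategory Opposite Simplicial

set_option autoImplicit false

namespace Pool.Agent.Helper37.FL2

open FL Pool.Agent.Helper43.FL2

noncomputable section

variable {C : Type} [SmallCategory C] {X : SP (Wr C)}

/-- The presheaf attached to `[0]` by the frame `VFr T`. -/
abbrev P0 (T : Fr C) (m : SimplexCategory) : SP (Wr C) := ((VFr T).obj (Wr.pt : Wr C)).obj m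

/-- Its unique simplex. -/
def star (T : Fr C) (m : SimplexCategory) (η : (Wr C)ᵒᵖ) (k : SimplexCategoryᵒᵖ) :
    ((P0 T m).obj η).obj k :=
  ({ f := ⟨fun _ => (0 : Fin 1), fun _ _ _ => le_refl _⟩
     g := fun _ (j : Fin 0) _ => j.elim0 } :
      VS (fun i : Fin 0 => (T.obj ((Wr.pt : Wr C).obj i)).obj m) η.unop k)

theorem star_unique (T : Fr C) (m : SimplexCategory) (η : (Wr C)ᵒᵖ) (k : SimplexCategoryᵒᵖ)
    (x : ((P0 T m).obj η).obj k) : x = star T m η k := by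
  refine VS.ext' (u := (show VS (fun i : Fin 0 => (T.obj ((Wr.pt : Wr C).obj i)).obj m) η.unop k
    from x)) ?_ fun i (j : Fin 0) _ _ => j.elim0
  ext t
  exact congrArg Fin.val (Subsingleton.elim (α := Fin 1) _ _)

/-- The simplices with constant first component. -/
def cS (B : SP C) : Sb (V1 B) where
  mem θ k := fun (u : VS (fun _ : Fin 1 => B) θ.unop k) => ∃ j : Fin 2, ∀ t, u.f t = j
  mapA := by
    rintro θ θ' φ k u ⟨j, h⟩
    exact ⟨j, fun t => h _⟩
  mapk := by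
    rintro θ k l α u h
    exact h

/-- The simplices of `V[1](B)` with constant first component `j`. -/
theorem const_eq (T : Fr C) (c : C) (m : SimplexCategory) {η : (Wr C)ᵒᵖ}
    {k : SimplexCategoryᵒᵖ} (j : Fin 2) (x : ((P0 T m).obj η).obj k)
    (u : VS (fun _ : Fin 1 => (T.obj c).obj m) η.unop k) (h : ∀ t, u.f t = j) :
    ((((VFr T).map (vtx (seg c) j)).app m).app η).app k x =
      (show ((V1 ((T.obj c).obj m)).obj η).obj k from u) := by
  refine VS.ext' (v := u) ?_ fun i l h1 h2 => ?_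
  · ext t
    rw [h t]
    rfl
  · exfalso
    have h3 : l.succ ≤ u.f i.succ := h2.2
    have h4 : u.f i.castSucc ≤ l.castSucc := h2.1
    rw [h] at h3 h4
    exact lt_irrefl _ ((h4.trans_lt Fin.castSucc_lt_succ).trans_le h3)

/-- The map on the part lying over the vertices. -/
def fW (T : Fr C) (B : SP C) (ee : Fin 2 → MpS (P0 T ⦋1⦌) X ⦋1⦌) :
    (tube (cS B)).toSP ⟶ X where
  app η :=
    { app := fun k => ↾ fun z =>
        (ee ((show VS (fun _ : Fin 1 => B) η.unop k from z.1.1).f 0)).app η k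
          (SSet.stdSimplex.objEquiv z.1.2) (star T ⦋1⦌ η k)
      naturality := fun k l α => by
        refine ConcreteCategory.hom_ext _ _ fun z => ?_
        refine Eq.trans ?_ ((ee ((show VS (fun _ : Fin 1 => B) η.unop k from z.1.1).f 0)).nat_right
          η α (SSet.stdSimplex.objEquiv z.1.2) (star T ⦋1⦌ η k))
        rw [star_unique T ⦋1⦌ η l (((P0 T ⦋1⦌).obj η).map α (star T ⦋1⦌ η k))]
        rfl }
  naturality η η' u := by
    refine NatTrans.ext (funext fun k => ?_)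
    refine ConcreteCategory.hom_ext _ _ fun z => ?_
    obtain ⟨j, hj⟩ := z.2
    have e1 : (show VS (fun _ : Fin 1 => B) η.unop k from z.1.1).f 0 = j := hj 0
    have e2 : ((show VS (fun _ : Fin 1 => B) η.unop k from z.1.1).mapθ u.unop).f 0 = j := hj _
    refine Eq.trans ?_ ((ee ((show VS (fun _ : Fin 1 => B) η.unop k from z.1.1).f 0)).nat_left u k
      (SSet.stdSimplex.objEquiv z.1.2) (star T ⦋1⦌ η k))
    change (ee (((show VS (fun _ : Fin 1 => B) η.unop k from z.1.1).mapθ u.unop).f 0)).app η' k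
      (SSet.stdSimplex.objEquiv z.1.2) (star T ⦋1⦌ η' k) =
      (ee ((show VS (fun _ : Fin 1 => B) η.unop k from z.1.1).f 0)).app η' k
      (SSet.stdSimplex.objEquiv z.1.2) (((P0 T ⦋1⦌).map u).app k (star T ⦋1⦌ η k))
    rw [e1, e2, star_unique T ⦋1⦌ η' k (((P0 T ⦋1⦌).map u).app k (star T ⦋1⦌ η k))]

/-- The map on the part lying over the vertex `v`. -/
def gW (B : SP C) (v : Fin 2) (g : MpS (V1 B) X ⦋0⦌) : (capS (⊤ : Sb (V1 B)) v).toSP ⟶ X where
  app η :=
    { app := fun k => ↾ fun z => g.app η k (SimplexCategory.const k.unop ⦋0⦌ 0) z.1.1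
      naturality := fun k l α => by
        refine ConcreteCategory.hom_ext _ _ fun z => ?_
        exact g.nat_right η α (SimplexCategory.const k.unop ⦋0⦌ 0) z.1.1 }
  naturality η η' u := by
    refine NatTrans.ext (funext fun k => ?_)
    refine ConcreteCategory.hom_ext _ _ fun z => ?_
    exact g.nat_left u k (SimplexCategory.const k.unop ⦋0⦌ 0) z.1.1

/-- Edges lift along `ends (Kf (VFr T) X) c`. -/
theorem edge_VFr (G : G1F X) (hrefl : ∀ {Q : SP (Wr C)} (S : Sb Q), LocT X S S) (T : Fr C)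
    (c : C) (v : Fin 2) :
    HasLiftingProperty (SSet.horn.{0} 1 v).ι (ends (Kf (VFr T) X) c) := by
  refine hlp_one _ v fun (g : MpS (V1 ((T.obj c).obj ⦋0⦌)) X ⦋0⦌)
    (e : MpS (P0 T ⦋1⦌) X ⦋1⦌ × MpS (P0 T ⦋1⦌) X ⦋1⦌) hge => ?_
  let ee : Fin 2 → MpS (P0 T ⦋1⦌) X ⦋1⦌ := fun j => if j = 0 then e.1 else e.2
  have hee0 : ee 0 = e.1 := rfl
  have hee1 : ee 1 = e.2 := rfl
  have H : ∀ (j : Fin 2) (η : (Wr C)ᵒᵖ) (k : SimplexCategoryᵒᵖ) (s : k.unop ⟶ ⦋0⦌)
      (x : ((P0 T ⦋0⦌).obj η).obj k),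
      g.app η k s (((((VFr T).map (vtx (seg c) j)).app ⦋0⦌).app η).app k x) =
        (ee j).app η k (s ≫ SimplexCategory.const ⦋0⦌ ⦋1⦌ v) (star T ⦋1⦌ η k) := by
    intro j η k s x
    have key : ∀ z : MpS (P0 T ⦋1⦌) X ⦋1⦌,
        (((Kf (VFr T) X).obj (op Wr.pt)).map (SimplexCategory.const ⦋0⦌ ⦋1⦌ v).op z :
          MpS (P0 T ⦋0⦌) X ⦋0⦌).app η k s x =
        z.app η k (s ≫ SimplexCategory.const ⦋0⦌ ⦋1⦌ v) (star T ⦋1⦌ η k) := by
      intro z
      change z.app η k (s ≫ SimplexCategory.const ⦋0⦌ ⦋1⦌ v) _ = _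
      congr 1
      exact star_unique T ⦋1⦌ η k _
    fin_cases j
    · exact (congrArg (fun z : MpS (P0 T ⦋0⦌) X ⦋0⦌ => z.app η k s x)
        (congrArg Prod.fst hge)).trans (key e.1)
    · exact (congrArg (fun z : MpS (P0 T ⦋0⦌) X ⦋0⦌ => z.app η k s x)
        (congrArg Prod.snd hge)).trans (key e.2)
  obtain ⟨F, hF1, hF2⟩ := extend_tube G (cS ((T.obj c).obj ⦋0⦌)) ⊤ v
    (by rw [sup_top_eq]; exact hrefl _) (fW T _ ee) (gW _ v g) (by
      intro η k x hx hx'
      obtain ⟨j, hj⟩ := hx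
      have hj0 : (show VS (fun _ : Fin 1 => (T.obj c).obj ⦋0⦌) η.unop k from x.1).f 0 = j := hj 0
      have h1 := H j η k (SimplexCategory.const k.unop ⦋0⦌ 0) (star T ⦋0⦌ η k)
      have h2 := const_eq T c ⦋0⦌ j (star T ⦋0⦌ η k)
        (show VS (fun _ : Fin 1 => (T.obj c).obj ⦋0⦌) η.unop k from x.1) hj
      rw [h2] at h1
      refine Eq.trans ?_ h1.symm
      change (ee ((show VS (fun _ : Fin 1 => (T.obj c).obj ⦋0⦌) η.unop k from x.1).f 0)).app η k
          (SSet.stdSimplex.objEquiv x.2) (star T ⦋1⦌ η k) = _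
      have h4 : x.2 = cv v k := hx'.2
      rw [hj0, h4]
      rfl)
  let σ : V1 ((T.obj c).obj ⦋1⦌) ⟶ V1 ((T.obj c).obj ⦋0⦌) :=
    ((VFr T).obj (seg c)).map (SimplexCategory.const ⦋1⦌ ⦋0⦌ 0)
  refine ⟨((MpS.ofHom ⦋1⦌ σ).comp (ofTn F : MpS (V1 ((T.obj c).obj ⦋0⦌)) X ⦋1⦌) :
    MpS (V1 ((T.obj c).obj ⦋1⦌)) X ⦋1⦌), ?_, ?_⟩
  · have key : ∀ j : Fin 2, (MpS.ofHom ⦋1⦌ (((VFr T).map (vtx (seg c) j)).app ⦋1⦌)).comp
        ((MpS.ofHom ⦋1⦌ σ).comp (ofTn F : MpS (V1 ((T.obj c).obj ⦋0⦌)) X ⦋1⦌)) = ee j := by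
      intro j
      refine MpS.ext (funext fun η => funext fun k => funext fun s => funext fun x => ?_)
      refine (hF1 η k ((σ.app η).app k (((((VFr T).map (vtx (seg c) j)).app ⦋1⦌).app η).app k x),
        SSet.stdSimplex.objEquiv.symm s) ⟨j, fun t => rfl⟩).trans ?_
      change (ee j).app η k s (star T ⦋1⦌ η k) = (ee j).app η k s x
      rw [star_unique T ⦋1⦌ η k x]
    exact Prod.ext (key 0) (key 1)
  · refine MpS.ext (funext fun η => funext fun k => funext fun s => funext fun x => ?_)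
    have hx : (σ.app η).app k (((((VFr T).obj (seg c)).map
        (SimplexCategory.const ⦋0⦌ ⦋1⦌ v)).app η).app k x) = x := by
      refine (cos_comp ((VFr T).obj (seg c)) (SimplexCategory.const ⦋0⦌ ⦋1⦌ v)
        (SimplexCategory.const ⦋1⦌ ⦋0⦌ 0) x).symm.trans ?_
      have : SimplexCategory.const ⦋0⦌ ⦋1⦌ v ≫ SimplexCategory.const ⦋1⦌ ⦋0⦌ 0 = 𝟙 ⦋0⦌ := by
        ext i : 3
        exact Subsingleton.elim (α := Fin 1) _ _
      rw [this]
      exact cos_id ((VFr T).obj (seg c)) x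
    have h1 : s = SimplexCategory.const k.unop ⦋0⦌ 0 := by
      ext i : 3
      exact Subsingleton.elim (α := Fin 1) _ _
    change (F.app η).app k ((σ.app η).app k (((((VFr T).obj (seg c)).map
        (SimplexCategory.const ⦋0⦌ ⦋1⦌ v)).app η).app k x),
        SSet.stdSimplex.objEquiv.symm (s ≫ SimplexCategory.const ⦋0⦌ ⦋1⦌ v)) = g.app η k s x
    rw [hx, h1]
    exact hF2 η k (x, SSet.stdSimplex.objEquiv.symm
      (SimplexCategory.const k.unop ⦋0⦌ 0 ≫ SimplexCategory.const ⦋0⦌ ⦋1⦌ v)) ⟨trivial, rfl⟩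

end

end Pool.Agent.Helper37.FL2
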