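import Pool.Agent.Helper37.FL2.MapW
import Pool.Agent.Helper45.FL2.LocAll
import Pool.Agent.Helper53.FL2.HmAdj

/-!
# FL2-C1b: the gluing condition for the frames `VFr T`
-/

open CategoryTheory MonoidalCategory Opposite Simplicial

set_option autoImplicit false

namespace Pool.Agent.Helper37.FL2

open FL Pool.Agent.Helper45.LOC

noncomputable section

section Gen

variable {A : Type} [SmallCategory A] {X : SP A}

theorem locT_sup (hX : InjFib X) {P : SP A} {S T S' T' : Sb P} (hS : LocT X S S')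
    (hT : LocT X T T') (hI : LocT X (S ⊓ T) (S' ⊓ T')) : LocT X (S ⊔ T) (S' ⊔ T') := by
  obtain ⟨h1, h1'⟩ := hS
  obtain ⟨h2, h2'⟩ := hT
  obtain ⟨h3, h3'⟩ := hI
  refine ⟨sup_le_sup h1 h2, ?_⟩
  exact loc_restr_sup hX (𝟙 P) S T S' T' (fun a k x hx => h1 a k hx)
    (fun a k x hx => h2 a k hx) h1' h2' h3'

theorem comap_finset_sup {P Q : SP A} (f : P ⟶ Q) {ι : Type} (s : Finset ι) (g : ι → Sb Q) :
    (s.sup g).comap f = s.sup (fun x => (g x).comap f) :=
  Finset.comp_sup_eq_sup_comp (Sb.comap f) (fun _ _ => rfl) rfl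

theorem range_ι {P : SP A} (S : Sb P) : Sb.range S.ι = S := by
  refine Sb.ext (funext fun a => funext fun k => Set.ext fun x => ?_)
  constructor
  · rintro ⟨y, rfl⟩
    exact y.2
  · intro hx
    exact ⟨⟨x, hx⟩, rfl⟩

theorem mono_ι {P : SP A} (S : Sb P) (a : Aᵒᵖ) : Mono (S.ι.app a) := by
  rw [NatTrans.mono_iff_mono_app]
  intro k
  rw [mono_iff_injective]
  intro x y h
  exact Subtype.ext h

theorem comap_ι_self {P : SP A} (S : Sb P) : S.comap S.ι = ⊤ := by
  refine Sb.ext (funext fun a => funext fun k => Set.ext fun x => ?_)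
  exact ⟨fun _ => trivial, fun _ => x.2⟩

theorem range_ofLE {P : SP A} {S T : Sb P} (h : S ≤ T) : Sb.range (Sb.ofLE h) = S.comap T.ι := by
  refine Sb.ext (funext fun a => funext fun k => Set.ext fun x => ?_)
  constructor
  · rintro ⟨y, rfl⟩
    exact y.2
  · intro hx
    exact ⟨⟨x.1, hx⟩, rfl⟩

end Gen

section VV

variable {C : Type} [SmallCategory C]

/-- The sub-presheaf of `V[m](B)` of all simplices with labels in `L`. -/
def VV {m : ℕ} {B : Fin m → SP C} (L : ∀ j, Sb (B j)) : Sb (V B) where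
  mem θ k := fun (u : VS B θ.unop k) =>
    ∀ i j (h : Jump u.f i j), u.g i j h ∈ (L j).mem (op (θ.unop.obj i)) k
  mapA := by
    intro θ θ' φ k u hu i l h
    obtain ⟨j, hj, hj'⟩ := Jump.split (f := Wr.Hom.f φ.unop)
      (g := (show VS B θ.unop k from u).f) h
    have e := VS.mapθ_g φ.unop (show VS B θ.unop k from u) hj hj'
    have e2 : ((show VS B θ.unop k from u).mapθ φ.unop).g i l h =
      ((B l).map (Wr.Hom.g φ.unop i j hj).op).app k ((show VS B θ.unop k from u).g j l hj') := e
    have e3 := (L l).mapA (Wr.Hom.g φ.unop i j hj).op k _ (hu j l hj')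
    rw [← e2] at e3
    exact e3
  mapk := by
    intro θ k l α u hu i j h
    exact (L j).mapk _ α _ (hu i j h)

variable {m : ℕ} {B B' : Fin m → SP C}

theorem VV_inf (L L' : ∀ j, Sb (B j)) : VV (fun j => L j ⊓ L' j) = VV L ⊓ VV L' := by
  refine Sb.ext (funext fun a => funext fun k => Set.ext fun u => ?_)
  constructor
  · intro h
    exact ⟨fun i j hj => (h i j hj).1, fun i j hj => (h i j hj).2⟩
  · rintro ⟨h1, h2⟩ i j hj
    exact ⟨h1 i j hj, h2 i j hj⟩

theorem VV_mono {L L' : ∀ j, Sb (B j)} (h : ∀ j, L j ≤ L' j) : VV L ≤ VV L' := by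
  intro a k u hu i j hj
  exact h j _ _ (hu i j hj)

theorem VV_top : VV (fun j => (⊤ : Sb (B j))) = ⊤ := by
  refine Sb.ext (funext fun a => funext fun k => Set.ext fun u => ?_)
  exact ⟨fun _ => trivial, fun _ _ _ _ => trivial⟩

theorem comap_VV (p : ∀ j, B' j ⟶ B j) (L : ∀ j, Sb (B j)) :
    (VV L).comap (V.map p) = VV (fun j => (L j).comap (p j)) := rfl

theorem comap_vface (p : ∀ j, B' j ⟶ B j) (U : Finset (Fin (m + 1))) :
    (vface B U).comap (V.map p) = vface B' U := rfl

theorem range_Vmap (p : ∀ j, B' j ⟶ B j) :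
    Sb.range (V.map p) = VV (fun j => Sb.range (p j)) := by
  refine Sb.ext (funext fun a => funext fun k => Set.ext fun u => ?_)
  constructor
  · rintro ⟨y, rfl⟩ i j h
    exact ⟨(show VS B' a.unop k from y).g i j h, rfl⟩
  · intro hu
    refine ⟨(show ((V B').obj a).obj k from
      ({ f := (show VS B a.unop k from u).f, g := fun i j h => (hu i j h).choose } :
        VS B' a.unop k)), ?_⟩
    exact VS.ext' (v := (show VS B a.unop k from u)) rfl fun i j h h' => (hu i j h).choose_spec

theorem mono_Vmap (p : ∀ j, B' j ⟶ B j) (hp : ∀ j a, Mono ((p j).app a)) (a : (Wr C)ᵒᵖ) :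
    Mono ((V.map p).app a) := by
  rw [NatTrans.mono_iff_mono_app]
  intro k
  rw [mono_iff_injective]
  intro (u : VS B' a.unop k) (v : VS B' a.unop k) e
  have hf : u.f = v.f := congrArg (fun w : VS B a.unop k => w.f) e
  refine VS.ext' hf fun i j h h' => ?_
  have h1 := InV.vs_g_congr (u := u.push p) (v := v.push p) e i j h h'
  have h2 : Mono (((p j).app (op (a.unop.obj i))).app k) :=
    (NatTrans.mono_iff_mono_app _).1 (hp j (op (a.unop.obj i))) k
  exact (mono_iff_injective _).1 h2 h1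

theorem comap_spineL (p : ∀ j, B' j ⟶ B j) :
    (spineL (vface B) Finset.univ).comap (V.map p) = spineL (vface B') Finset.univ := by
  unfold spineL
  have h : ∀ S T : Sb (V B), (S ⊔ T).comap (V.map p) = S.comap (V.map p) ⊔ T.comap (V.map p) :=
    fun _ _ => rfl
  rw [h, comap_finset_sup, comap_finset_sup]
  rfl

variable {X : SP (Wr C)}

/-- The statement of H3. -/
def SpHyp (X : SP (Wr C)) : Prop := ∀ {m : ℕ} (B : Fin m → SP C),
  LocT X (spineL (vface B) Finset.univ) ⊤

theorem spine_VV (hsp : SpHyp X) (L : ∀ j, Sb (B j)) :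
    LocT X (VV L ⊓ spineL (vface B) Finset.univ) (VV L) := by
  have hr : Sb.range (V.map fun j => (L j).ι) = VV L := by
    rw [range_Vmap]
    congr 1
    funext j
    exact range_ι (L j)
  refine (locT_comap (V.map fun j => (L j).ι) (mono_Vmap _ fun j => mono_ι (L j)) _ _ inf_le_left
    (le_of_eq hr.symm)).1 ?_
  have h1 : (VV L).comap (V.map fun j => (L j).ι) = ⊤ := by
    rw [comap_VV]
    refine Eq.trans ?_ VV_top
    congr 1
    funext j
    exact comap_ι_self (L j)
  have h2 : (VV L ⊓ spineL (vface B) Finset.univ).comap (V.map fun j => (L j).ι) =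
      (VV L).comap (V.map fun j => (L j).ι) ⊓
        (spineL (vface B) Finset.univ).comap (V.map fun j => (L j).ι) := rfl
  rw [h2, h1, comap_spineL, top_inf_eq]
  exact hsp _

end VV

section Edge

variable {C : Type} [SmallCategory C] {X : SP (Wr C)}

theorem cn_refl (K : SSet.{0}) (x : K.obj (op ⦋0⦌)) : Cn K x x :=
  ⟨cst K x (op ⦋1⦌), (cst_map K x _).trans (cst_zero K x), (cst_map K x _).trans (cst_zero K x)⟩

/-- Suspensions of local inclusions. -/
theorem locT_V1 (hX : InjFib X) {B : SP C} {S T : Sb B} (h : S ≤ T)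
    (hl : ∀ x y : Vt X, LocT (Hm X x y) S T) :
    LocT X (VV (B := fun _ : Fin 1 => B) fun _ => S) (VV (B := fun _ : Fin 1 => B) fun _ => T) := by
  have hr : Sb.range (V1map T.ι) = VV (B := fun _ : Fin 1 => B) fun _ => T := by
    rw [range_Vmap]
    congr 1
    funext j
    exact range_ι T
  refine (locT_comap (V1map T.ι) (mono_Vmap _ fun j => mono_ι T) _ _ (VV_mono fun _ => h)
    (le_of_eq hr.symm)).1 ?_
  have h1 : (VV (B := fun _ : Fin 1 => B) fun _ => T).comap (V1map T.ι) = ⊤ := by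
    rw [comap_VV]
    refine Eq.trans ?_ VV_top
    congr 1
    funext j
    exact comap_ι_self T
  have h2 : (VV (B := fun _ : Fin 1 => B) fun _ => S).comap (V1map T.ι) =
      Sb.range (V1map (Sb.ofLE h)) := by
    rw [comap_VV, range_Vmap]
    congr 1
    funext j
    exact (range_ofLE h).symm
  rw [h1, h2]
  refine (loc_iff_range (V1map (Sb.ofLE h)) (mono_Vmap _ fun j => mono_ofLE h)).1 ?_
  refine (Helper53FL2.loc_V1map_iff hX (Sb.ofLE h) Set.univ
    fun z => ⟨z, trivial, cn_refl _ z⟩).2 ?_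
  intro x _ y _
  exact (hl x y).2

theorem VV_sup_one {B : SP C} (S S' : Sb B) :
    (VV (B := fun _ : Fin 1 => B) fun _ => S ⊔ S') =
      (VV (B := fun _ : Fin 1 => B) fun _ => S) ⊔ (VV (B := fun _ : Fin 1 => B) fun _ => S') := by
  refine le_antisymm ?_ (sup_le (VV_mono fun _ => le_sup_left) (VV_mono fun _ => le_sup_right))
  intro θ k (u : VS (fun _ : Fin 1 => B) θ.unop k) hu
  by_cases hc : ∃ i, Jump u.f i 0
  · obtain ⟨i, hi⟩ := hc
    have key : ∀ i' (j : Fin 1) (h : Jump u.f i' j), i' = i ∧ j = 0 := by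
      intro i' j h
      obtain rfl : j = 0 := Subsingleton.elim _ _
      exact ⟨h.unique hi, rfl⟩
    rcases hu i 0 hi with h | h
    · refine Or.inl fun i' j h' => ?_
      obtain ⟨rfl, rfl⟩ := key i' j h'
      exact h
    · refine Or.inr fun i' j h' => ?_
      obtain ⟨rfl, rfl⟩ := key i' j h'
      exact h
  · refine Or.inl fun i' j h' => ?_
    obtain rfl : j = 0 := Subsingleton.elim _ _
    exact (hc ⟨i', h'⟩).elim

variable {m : ℕ} (B : Fin m → SP C) (i : Fin m)

/-- The inclusion of the edge `i`. -/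
def pE : Fin (1 + 1) →o Fin (m + 1) :=
  ⟨fun t => ⟨i.val + t.val, by have := i.isLt; have := t.isLt; omega⟩, fun s t h => by
    rw [Fin.le_def] at h ⊢
    simp only
    omega⟩

theorem pE_jump {j : Fin 1} {k : Fin m} (h : Jump (pE i) j k) : i = k := by
  obtain rfl : j = 0 := Subsingleton.elim _ _
  have h1 : i.val + 0 ≤ k.val := h.1
  have h2 : k.val + 1 ≤ i.val + 1 := h.2
  exact Fin.ext (by omega)

theorem pE_jump' : Jump (pE i) 0 i := by
  constructor
  · exact le_of_eq (Fin.ext (by simp [pE]))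
  · exact le_of_eq (Fin.ext (by simp [pE]))

/-- The components of the inclusion of the edge `i`. -/
def qE : ∀ (j : Fin 1) (k : Fin m), Jump (pE i) j k → (B i ⟶ B k) :=
  fun _ _ h => eqToHom (congrArg B (pE_jump i h))

theorem inV_edge : InV (X := fun _ : Fin 1 => B i) (Y := B) (pE i) (qE B i) i.val where
  f t := rfl
  g j k h c l := by
    have : IsIso ((((qE B i j k h)).app c).app l) := by
      unfold qE
      infer_instance
    exact (isIso_iff_bijective _).mp this

theorem comap_edge (L : ∀ j, Sb (B j)) :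
    (VV L).comap (V.mapW (X := fun _ : Fin 1 => B i) (Y := B) (pE i) (qE B i)) =
      VV (B := fun _ : Fin 1 => B i) fun _ => L i := by
  refine Sb.ext (funext fun θ => funext fun k => Set.ext fun u => ?_)
  constructor
  · intro hu i' j h
    obtain rfl : j = 0 := Subsingleton.elim _ _
    have h1 := hu i' i (h.comp (pE_jump' i))
    have e := VS.pushW_g (pE i) (qE B i) (show VS (fun _ : Fin 1 => B i) θ.unop k from u) h
      (pE_jump' i)
    have h2 : ((show VS (fun _ : Fin 1 => B i) θ.unop k from u).pushW (pE i) (qE B i)).g i' i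
      (h.comp (pE_jump' i)) ∈ (L i).mem (op (θ.unop.obj i')) k := h1
    rw [e] at h2
    exact h2
  · intro hu i' l h
    obtain ⟨j, hj, hj'⟩ := Jump.split
      (f := (show VS (fun _ : Fin 1 => B i) θ.unop k from u).f) (g := pE i) h
    obtain rfl : i = l := pE_jump i hj'
    have e := VS.pushW_g (pE i) (qE B i) (show VS (fun _ : Fin 1 => B i) θ.unop k from u) hj hj'
    have h2 := hu i' j hj
    change ((show VS (fun _ : Fin 1 => B i) θ.unop k from u).pushW (pE i) (qE B i)).g i' i
      (hj.comp hj') ∈ (L i).mem (op (θ.unop.obj i')) k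
    rw [e]
    exact h2

theorem range_edge :
    Sb.range (V.mapW (X := fun _ : Fin 1 => B i) (Y := B) (pE i) (qE B i)) =
      vface B {i.castSucc, i.succ} := by
  refine Sb.ext (funext fun θ => funext fun k => Set.ext fun u => ?_)
  refine ((inV_edge B i).mem_range θ k u).trans ?_
  refine forall_congr' fun t => ?_
  rw [Finset.mem_insert, Finset.mem_singleton, Fin.ext_iff, Fin.ext_iff, Fin.val_castSucc,
    Fin.val_succ]
  omega

variable {B}

/-- The gluing condition on one edge. -/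
theorem D_edge (hX : InjFib X) (L L' L'' : ∀ j, Sb (B j)) (h : ∀ j, L j ⊔ L' j ≤ L'' j)
    (hl : ∀ j (x y : Vt X), LocT (Hm X x y) (L j ⊔ L' j) (L'' j)) :
    LocT X ((VV L ⊔ VV L') ⊓ vface B {i.castSucc, i.succ})
      (VV L'' ⊓ vface B {i.castSucc, i.succ}) := by
  have hle : VV L ⊔ VV L' ≤ VV L'' :=
    sup_le (VV_mono fun j => le_sup_left.trans (h j)) (VV_mono fun j => le_sup_right.trans (h j))
  rw [← range_edge B i]
  refine (locT_comap (V.mapW (X := fun _ : Fin 1 => B i) (Y := B) (pE i) (qE B i))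
    (inV_edge B i).mono _ _ (inf_le_inf_right _ hle) inf_le_right).1 ?_
  have hr : (Sb.range (V.mapW (X := fun _ : Fin 1 => B i) (Y := B) (pE i) (qE B i))).comap
      (V.mapW (X := fun _ : Fin 1 => B i) (Y := B) (pE i) (qE B i)) = ⊤ := by
    refine Sb.ext (funext fun a => funext fun k => Set.ext fun x => ?_)
    exact ⟨fun _ => trivial, fun _ => ⟨x, rfl⟩⟩
  have h1 : ∀ S : Sb (V B), (S ⊓ Sb.range (V.mapW (X := fun _ : Fin 1 => B i) (Y := B) (pE i)
      (qE B i))).comap (V.mapW (X := fun _ : Fin 1 => B i) (Y := B) (pE i) (qE B i)) =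
      S.comap (V.mapW (X := fun _ : Fin 1 => B i) (Y := B) (pE i) (qE B i)) := by
    intro S
    refine Eq.trans ?_ (inf_top_eq _)
    rw [← hr]
    rfl
  have h2 : (VV L ⊔ VV L').comap (V.mapW (X := fun _ : Fin 1 => B i) (Y := B) (pE i) (qE B i)) =
      (VV L).comap (V.mapW (X := fun _ : Fin 1 => B i) (Y := B) (pE i) (qE B i)) ⊔
      (VV L').comap (V.mapW (X := fun _ : Fin 1 => B i) (Y := B) (pE i) (qE B i)) := rfl
  rw [h1, h1, h2, comap_edge, comap_edge, comap_edge, ← VV_sup_one]
  exact locT_V1 hX (h i) (hl i)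

end Edge

section Main

variable {C : Type} [SmallCategory C] {X : SP (Wr C)} {m : ℕ} {B : Fin m → SP C}

theorem vface_vertex_le (L : ∀ j, Sb (B j)) :
    (Finset.univ.sup fun a : Fin (m + 1) => vface B {a}) ≤ VV L := by
  refine Finset.sup_le fun a _ => ?_
  intro θ k (u : VS B θ.unop k) hu i l h
  exfalso
  have h3 : l.succ ≤ u.f i.succ := h.2
  have h4 : u.f i.castSucc ≤ l.castSucc := h.1
  have h5 : u.f i.succ = a := Finset.mem_singleton.1 (hu i.succ)
  have h6 : u.f i.castSucc = a := Finset.mem_singleton.1 (hu i.castSucc)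
  rw [h5] at h3
  rw [h6] at h4
  exact lt_irrefl _ ((h4.trans_lt Fin.castSucc_lt_succ).trans_le h3)

/-- The gluing condition on the spine. -/
theorem D_spine (hX : InjFib X) (L L' L'' : ∀ j, Sb (B j)) (h : ∀ j, L j ⊔ L' j ≤ L'' j)
    (hl : ∀ j (x y : Vt X), LocT (Hm X x y) (L j ⊔ L' j) (L'' j)) :
    LocT X ((VV L ⊔ VV L') ⊓ spineL (vface B) Finset.univ)
      (VV L'' ⊓ spineL (vface B) Finset.univ) := by
  classical
  set W : Sb (V B) := Finset.univ.sup fun a : Fin (m + 1) => vface B {a} with hW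
  have hsmall : ∀ K : Sb (V B), K ≤ W → LocT X ((VV L ⊔ VV L') ⊓ K) (VV L'' ⊓ K) := by
    intro K hK
    have e1 : (VV L ⊔ VV L') ⊓ K = K :=
      inf_eq_right.2 ((hK.trans (vface_vertex_le L)).trans le_sup_left)
    have e2 : VV L'' ⊓ K = K := inf_eq_right.2 (hK.trans (vface_vertex_le L''))
    rw [e1, e2]
    exact locT_refl K
  have hglue : ∀ K K' : Sb (V B), LocT X ((VV L ⊔ VV L') ⊓ K) (VV L'' ⊓ K) →
      LocT X ((VV L ⊔ VV L') ⊓ K') (VV L'' ⊓ K') →
      LocT X ((VV L ⊔ VV L') ⊓ (K ⊓ K')) (VV L'' ⊓ (K ⊓ K')) →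
      LocT X ((VV L ⊔ VV L') ⊓ (K ⊔ K')) (VV L'' ⊓ (K ⊔ K')) := by
    intro K K' h1 h2 h3
    rw [inf_sup_left, inf_sup_left (VV L'')]
    refine locT_sup hX h1 h2 ?_
    rw [← inf_inf_distrib_left, ← inf_inf_distrib_left]
    exact h3
  have main : ∀ Q : Finset (Fin (m + 1) × Fin (m + 1)),
      (∀ p ∈ Q, p.1 < p.2 ∧ ∀ c ∈ (Finset.univ : Finset (Fin (m + 1))), ¬ (p.1 < c ∧ c < p.2)) →
      LocT X ((VV L ⊔ VV L') ⊓ (W ⊔ Q.sup fun p => vface B {p.1, p.2}))
        (VV L'' ⊓ (W ⊔ Q.sup fun p => vface B {p.1, p.2})) := by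
    have cons : ∀ p : Fin (m + 1) × Fin (m + 1), (p.1 < p.2 ∧
        ∀ c ∈ (Finset.univ : Finset (Fin (m + 1))), ¬ (p.1 < c ∧ c < p.2)) →
        p.2.val = p.1.val + 1 := by
      rintro ⟨a, b⟩ ⟨h1, h2⟩
      have h1' : a.val < b.val := h1
      have h3 := h2 ⟨a.val + 1, by
        have := b.isLt
        omega⟩ (Finset.mem_univ _)
      have h3' : ¬ (a.val < a.val + 1 ∧ a.val + 1 < b.val) := h3
      show b.val = a.val + 1
      omega
    intro Q
    induction Q using Finset.induction_on with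
    | empty =>
      intro _
      rw [Finset.sup_empty, sup_bot_eq]
      exact hsmall W le_rfl
    | insert p Q hp ih =>
      intro hQ
      have ihQ := ih fun q hq => hQ q (Finset.mem_insert_of_mem hq)
      have hpc := cons p (hQ p (Finset.mem_insert_self _ _))
      rw [Finset.sup_insert, sup_comm (vface B {p.1, p.2}), ← sup_assoc]
      refine hglue _ _ ihQ ?_ ?_
      · have hlt : p.1.val < m := by
          have := p.2.isLt
          omega
        have e1 : p.1 = (⟨p.1.val, hlt⟩ : Fin m).castSucc := rfl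
        have e2 : p.2 = (⟨p.1.val, hlt⟩ : Fin m).succ := Fin.ext hpc
        have e3 : vface B {p.1, p.2} = vface B {(⟨p.1.val, hlt⟩ : Fin m).castSucc,
            (⟨p.1.val, hlt⟩ : Fin m).succ} := by
          rw [e2]
          rfl
        rw [e3]
        exact D_edge ⟨p.1.val, hlt⟩ hX L L' L'' h hl
      · refine hsmall _ ?_
        rw [inf_sup_right]
        refine sup_le inf_le_left ?_
        rw [Finset.sup_inf_distrib_right]
        refine Finset.sup_le fun q hq => ?_
        have hqc := cons q (hQ q (Finset.mem_insert_of_mem hq))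
        have hne : q.1.val ≠ p.1.val := by
          intro e
          refine hp ?_
          have : q = p := Prod.ext (Fin.ext e) (Fin.ext (by omega))
          rw [← this]
          exact hq
        intro θ k (u : VS B θ.unop k) hu
        have hu1 : ∀ t, u.f t ∈ ({q.1, q.2} : Finset _) := hu.1
        have hu2 : ∀ t, u.f t ∈ ({p.1, p.2} : Finset _) := hu.2
        have key : ∀ t, u.f t = u.f 0 := by
          intro t
          have a1 := hu1 t
          have a2 := hu2 t
          have a3 := hu1 0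
          have a4 := hu2 0
          rw [Finset.mem_insert, Finset.mem_singleton, Fin.ext_iff, Fin.ext_iff] at a1 a2 a3 a4
          refine Fin.ext ?_
          omega
        have h1 : vface B {u.f 0} ≤ W :=
          Finset.le_sup (f := fun a : Fin (m + 1) => vface B {a}) (Finset.mem_univ (u.f 0))
        exact h1 θ k (show u ∈ (vface B {u.f 0}).mem θ k from
          fun t => Finset.mem_singleton.2 (key t))
  exact main _ fun p hp => (Finset.mem_filter.1 hp).2

/-- The gluing lemma for sub-presheaves of labels. -/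
theorem locT_VV (hX : InjFib X) (hsp : SpHyp X) (L L' L'' : ∀ j, Sb (B j))
    (h : ∀ j, L j ⊔ L' j ≤ L'' j)
    (hl : ∀ j (x y : Vt X), LocT (Hm X x y) (L j ⊔ L' j) (L'' j)) :
    LocT X (VV L ⊔ VV L') (VV L'') := by
  have hle : VV L ⊔ VV L' ≤ VV L'' :=
    sup_le (VV_mono fun j => le_sup_left.trans (h j)) (VV_mono fun j => le_sup_right.trans (h j))
  have h1 := D_spine hX L L' L'' h hl
  have h2 := spine_VV hsp L''
  have h3 := locT_trans hX h1 h2
  have h4 : LocT X ((VV L ⊔ VV L') ⊓ spineL (vface B) Finset.univ) (VV L ⊔ VV L') := by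
    rw [inf_sup_right]
    refine locT_sup hX (spine_VV hsp L) (spine_VV hsp L') ?_
    rw [← inf_inf_distrib_right, ← VV_inf]
    exact spine_VV hsp _
  exact locT_cancel hX h4 h3 hle

end Main

section Ext

variable {C : Type} [SmallCategory C] {X : SP (Wr C)}

theorem fface_mono {A : Type} [SmallCategory A] (F : SimplexCategory ⥤ SP A) {N : SimplexCategory}
    {U U' : Finset (Fin (N.len + 1))} (h : U ⊆ U') : fface F U ≤ fface F U' := by
  rintro a k x ⟨m, α, y, hα, rfl⟩
  exact ⟨m, α, y, fun i => h (hα i), rfl⟩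

/-- Simplices supported on `U` come from the inclusion of `U`. -/
theorem supp_emb {A : Type} [SmallCategory A] (F : SimplexCategory ⥤ SP A) {N : SimplexCategory}
    {U : Finset (Fin (N.len + 1))} {n : ℕ} (hn : U.card = n + 1) {a : Aᵒᵖ}
    {k : SimplexCategoryᵒᵖ} {x : ((F.obj N).obj a).obj k} (h : Supp F U x) :
    ∃ y : ((F.obj ⦋n⦌).obj a).obj k,
      ((F.map (SimplexCategory.Hom.mk (U.orderEmbOfFin hn).toOrderHom : ⦋n⦌ ⟶ N)).app a).app k y =
        x := by
  obtain ⟨m, α, y, hα, rfl⟩ := h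
  let β : m ⟶ ⦋n⦌ := SimplexCategory.Hom.mk
    ⟨fun t => (U.orderIsoOfFin hn).symm ⟨α.toOrderHom t, hα t⟩, fun s t hst => by
      rw [OrderIso.le_iff_le]
      exact α.toOrderHom.monotone hst⟩
  refine ⟨((F.map β).app a).app k y, ?_⟩
  refine (cos_comp F β _ y).symm.trans ?_
  have e : β ≫ (SimplexCategory.Hom.mk (U.orderEmbOfFin hn).toOrderHom : ⦋n⦌ ⟶ N) = α := by
    ext t : 3
    change (U.orderEmbOfFin hn) ((U.orderIsoOfFin hn).symm ⟨α.toOrderHom t, hα t⟩) =
      α.toOrderHom t
    rw [← Finset.coe_orderIsoOfFin_apply, OrderIso.apply_symm_apply]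
  rw [e]

theorem fface_VFr (T : Fr C) (θ : Wr C) {N : SimplexCategory} {U : Finset (Fin (N.len + 1))}
    (hU : U.Nonempty) :
    fface ((VFr T).obj θ) U =
      VV (B := fun j => (T.obj (θ.obj j)).obj N) fun j => fface (T.obj (θ.obj j)) U := by
  obtain ⟨n, hn⟩ : ∃ n, U.card = n + 1 :=
    ⟨U.card - 1, by have := Finset.card_pos.2 hU; omega⟩
  refine Sb.ext (funext fun η => funext fun k => Set.ext fun u => ?_)
  constructor
  · rintro ⟨m, α, y, hα, rfl⟩ i j h
    exact ⟨m, α, (show VS (fun j => (T.obj (θ.obj j)).obj m) η.unop k from y).g i j h, hα, rfl⟩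
  · intro hu
    refine ⟨⦋n⦌, SimplexCategory.Hom.mk (U.orderEmbOfFin hn).toOrderHom,
      (show (((((VFr T).obj θ).obj ⦋n⦌)).obj η).obj k from
        ({ f := (show VS (fun j => (T.obj (θ.obj j)).obj N) η.unop k from u).f
           g := fun i j h => (supp_emb (T.obj (θ.obj j)) hn (hu i j h)).choose } :
          VS (fun j => (T.obj (θ.obj j)).obj ⦋n⦌) η.unop k)), ?_, ?_⟩
    · intro i
      exact Finset.orderEmbOfFin_mem U hn i
    · exact VS.ext' (v := (show VS (fun j => (T.obj (θ.obj j)).obj N) η.unop k from u)) rfl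
        fun i j h h' => (supp_emb (T.obj (θ.obj j)) hn (hu i j h)).choose_spec

/-- The gluing condition for `VFr T`. -/
theorem ext_VFr (hX : InjFib X) (hsp : SpHyp X) (T : Fr C)
    (hT : ∀ (x y : Vt X) (c : C), Ext (Hm X x y) (T.obj c)) (θ : Wr C) :
    Ext X ((VFr T).obj θ) := by
  intro N S S' v hv
  have hvS : v ∈ S ∧ v ∈ S' := Finset.mem_inter.1 (hv ▸ Finset.mem_singleton_self v)
  rw [fface_VFr T θ ⟨v, hvS.1⟩, fface_VFr T θ ⟨v, hvS.2⟩,
    fface_VFr T θ ⟨v, Finset.mem_union_left _ hvS.1⟩]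
  exact locT_VV hX hsp _ _ _
    (fun j => sup_le (fface_mono _ Finset.subset_union_left)
      (fface_mono _ Finset.subset_union_right))
    (fun j x y => hT x y (θ.obj j) N S S' v hv)

end Ext

end

end Pool.Agent.Helper37.FL2
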