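import Pool.Agent.Helper37.FL2.MapW
import Pool.Agent.Helper37.FL2.EdgeV
import Pool.Agent.Helper37.FL2.ExtV
import Pool.Agent.Helper51.FL2.Spine
import Pool.Agent.Helper43.FL2.Good
import Pool.Agent.Helper41.FL2.V4

/-!
# FL2-C1b: the frames `VFr T` and `Tfr` are good
-/

open CategoryTheory MonoidalCategory Opposite Simplicial

set_option autoImplicit false

namespace Pool.Agent.Helper37.FL2

open FL Pool.Agent.Helper43.FL2

section

variable {C : Type} [SmallCategory C]

theorem spHyp_of {X : SP (Wr C)} (hX : InjFib X) (hS : SpLoc X) : SpHyp X := by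
  intro m B
  have h := Pool.Agent.Helper51.FL2.vface_spine hX hS B Finset.univ
    ⟨0, Finset.mem_univ _⟩
  rwa [Pool.Agent.Helper51.FL2.vface_univ] at h

theorem goodFr_VFr {X : SP (Wr C)} (hX : InjFib X) (hS : SpLoc X) (T : Fr C)
    (hT : ∀ (x y : Vt X) (c : C), Ext (Hm X x y) (T.obj c)) : GoodFr X (VFr T) where
  ext θ := ext_VFr hX (spHyp_of hX hS) T hT θ
  mono_init c m a := mono_inertV T (inert_init c) m a
  mono_last c m a := mono_inertV T (inert_last c) m a
  inter c m := inter_VFr T c m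
  mono_vtx θ i m a := mono_inertV T (inert_vtx θ i) m a
  disj c m := disj_VFr T c m
  bin c m := by
    rw [binT_VFr]
    exact Pool.Agent.Helper51.FL2.vface_bin hX hS _ _
  edge c i := edge_VFr (g1F hX) (fun S => Pool.Agent.Helper45.LOC.locT_refl S) T c i

end

theorem goodFr_Tfr {n : ℕ} (j : ℕ) {X : SP (Th (n + 1))} (hX : Sg (n + 1) X) :
    GoodFr (C := Th n) X (Tfr (n + 1) j) := by
  induction n generalizing j with
  | zero =>
    have hS := ((Helper41FL2.sg_succ_iff hX.1 Set.univ
      (fun z => ⟨z, Set.mem_univ _, cn_refl _ _⟩)).1 hX).1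
    cases j with
    | zero => exact goodFr_T0 hX.1 hS
    | succ j =>
      exact goodFr_VFr hX.1 hS (Tfr 0 j) fun x y c => ext_cc _ _
  | succ n ih =>
    have hS := (Helper41FL2.sg_succ_iff hX.1 Set.univ
      (fun z => ⟨z, Set.mem_univ _, cn_refl _ _⟩)).1 hX
    cases j with
    | zero => exact goodFr_T0 hX.1 hS.1
    | succ j =>
      exact goodFr_VFr hX.1 hS.1 (Tfr (n + 1) j) fun x y c =>
        (ih j (hS.2 x (Set.mem_univ _) y (Set.mem_univ _))).ext c

end Pool.Agent.Helper37.FL2
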