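import Pool.Agent.Helper43.FL2.Inert

/-!
# FL2-C1b: the maps `V.mapW` over inclusions of intervals
-/

open CategoryTheory MonoidalCategory Opposite

set_option autoImplicit false

namespace Pool.Agent.Helper37.FL2

open FL

noncomputable section

variable {C : Type} [SmallCategory C]

/-- Maps `V.mapW` over inclusions of intervals, with bijective components. -/
structure InV {r m : ℕ} {X : Fin r → SP C} {Y : Fin m → SP C}
    (p : Fin (r + 1) →o Fin (m + 1))
    (q : ∀ (j : Fin r) (k : Fin m), Jump p j k → (X j ⟶ Y k)) (a : ℕ) : Prop where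
  f : ∀ t, (p t).val = a + t.val
  g : ∀ (j : Fin r) (k : Fin m) (h : Jump p j k) (c : Cᵒᵖ) (l : SimplexCategoryᵒᵖ),
    Function.Bijective (((q j k h).app c).app l)

namespace InV

variable {r m : ℕ} {X : Fin r → SP C} {Y : Fin m → SP C} {p : Fin (r + 1) →o Fin (m + 1)}
  {q : ∀ (j : Fin r) (k : Fin m), Jump p j k → (X j ⟶ Y k)} {a : ℕ}

theorem jump (h : InV p q a) {i : Fin r} {j : Fin m} : Jump p i j ↔ j.val = a + i.val := by
  unfold Jump
  rw [Fin.le_def, Fin.le_def, h.f, h.f]
  simp only [Fin.val_castSucc, Fin.val_succ]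
  omega

theorem lt (h : InV p q a) (i : Fin r) : a + i.val < m := by
  have h1 := h.f i.succ
  have h2 := (p i.succ).isLt
  rw [h1, Fin.val_succ] at h2
  omega

/-- The shifted index. -/
def sft (h : InV p q a) (i : Fin r) : Fin m := ⟨a + i.val, h.lt i⟩

theorem jump_sft (h : InV p q a) (i : Fin r) : Jump p i (h.sft i) := h.jump.2 rfl

theorem vs_g_congr {m : ℕ} {X : Fin m → SP C} {θ : Wr C} {k : SimplexCategoryᵒᵖ} {u v : VS X θ k}
    (e : u = v) (i : Fin θ.len) (j : Fin m) (h : Jump u.f i j) (h' : Jump v.f i j) :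
    u.g i j h = v.g i j h' := by
  subst e
  rfl

theorem injective (h : InV p q a) {θ : Wr C} {k : SimplexCategoryᵒᵖ} {u v : VS X θ k}
    (e : u.pushW p q = v.pushW p q) : u = v := by
  have hf : u.f = v.f := by
    ext t
    have h1 := congrArg (fun w : VS Y θ k => (w.f t).val) e
    simp only [VS.pushW_f, OrderHom.comp_coe, Function.comp_apply, h.f] at h1
    omega
  refine VS.ext' hf fun i j h1 h2 => ?_
  have e1 := VS.pushW_g p q u h1 (h.jump_sft j)
  have e2 := VS.pushW_g p q v h2 (h.jump_sft j)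
  have e3 := vs_g_congr e i (h.sft j) (h1.comp (h.jump_sft j)) (h2.comp (h.jump_sft j))
  refine (h.g j (h.sft j) (h.jump_sft j) (op (θ.obj i)) k).1 ?_
  rw [← e1, ← e2]
  exact e3

/-- Simplices with values in the interval factor. -/
theorem factor (h : InV p q a) {θ : Wr C} {k : SimplexCategoryᵒᵖ} (u : VS Y θ k)
    (hu : ∀ t, a ≤ (u.f t).val ∧ (u.f t).val ≤ a + r) :
    ∃ w : VS X θ k, w.pushW p q = u := by
  let f : Fin (θ.len + 1) →o Fin (r + 1) :=
    ⟨fun t => ⟨(u.f t).val - a, by have := hu t; omega⟩, fun s t hst => by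
      have := u.f.monotone hst
      rw [Fin.le_def] at this ⊢
      simp only
      omega⟩
  have hfv : ∀ t, (f t).val = (u.f t).val - a := fun t => rfl
  have hj : ∀ i j, Jump f i j → Jump u.f i (h.sft j) := by
    rintro i j ⟨h1, h2⟩
    rw [Fin.le_def, hfv, Fin.val_castSucc] at h1
    rw [Fin.le_def, hfv, Fin.val_succ] at h2
    have h3 := hu i.castSucc
    have h4 := hu i.succ
    refine ⟨?_, ?_⟩
    · rw [Fin.le_def, Fin.val_castSucc]
      simp only [sft]
      omega
    · rw [Fin.le_def, Fin.val_succ]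
      simp only [sft]
      omega
  let w : VS X θ k :=
    { f := f
      g := fun i j hij => Function.surjInv
        (h.g j (h.sft j) (h.jump_sft j) (op (θ.obj i)) k).2 (u.g i (h.sft j) (hj i j hij)) }
  refine ⟨w, VS.ext' ?_ ?_⟩
  · ext t
    change (p (f t)).val = _
    rw [h.f, hfv]
    have := hu t
    omega
  · intro i l h1 h2
    obtain ⟨j, hj1, hj2⟩ := Jump.split (f := w.f) (g := p) h1
    refine (VS.pushW_g p q w hj1 hj2).trans ?_
    obtain rfl : l = h.sft j := Fin.ext (h.jump.1 hj2)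
    exact Function.surjInv_eq (h.g j (h.sft j) (h.jump_sft j) (op (θ.obj i)) k).2 _

theorem mem_range (h : InV p q a) (θ : (Wr C)ᵒᵖ) (k : SimplexCategoryᵒᵖ)
    (u : VS Y θ.unop k) : (show ((V Y).obj θ).obj k from u) ∈ (Sb.range (V.mapW p q)).mem θ k ↔
      ∀ t, a ≤ (u.f t).val ∧ (u.f t).val ≤ a + r := by
  constructor
  · rintro ⟨w, hw⟩ t
    have hw' : (VS.pushW p q (show VS X θ.unop k from w)) = u := hw
    rw [← hw']
    change a ≤ (p _).val ∧ (p _).val ≤ a + r
    rw [h.f]
    have := ((show VS X θ.unop k from w).f t).isLt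
    omega
  · intro hu
    obtain ⟨w, hw⟩ := h.factor u hu
    exact ⟨w, hw⟩

theorem mono (h : InV p q a) (θ : (Wr C)ᵒᵖ) : Mono ((V.mapW p q).app θ) := by
  rw [NatTrans.mono_iff_mono_app]
  intro k
  rw [mono_iff_injective]
  intro u v e
  exact h.injective (u := (show VS X θ.unop k from u)) (v := (show VS X θ.unop k from v)) e

end InV

open Pool.Agent.Helper43.FL2

/-- The maps of the frame `VFr T` over inclusions of intervals. -/
theorem inV_of_inert (T : Fr C) {θ θ' : Wr C} {φ : θ ⟶ θ'} {a : ℕ} (h : Inert φ a)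
    (m : SimplexCategory) :
    InV (X := fun i => (T.obj (θ.obj i)).obj m) (Y := fun i => (T.obj (θ'.obj i)).obj m)
      (Wr.Hom.f φ) (fun j k hjk => (T.map (Wr.Hom.g φ j k hjk)).app m) a where
  f := h.f
  g j k hjk c l := by
    haveI := h.g j k hjk
    have : IsIso ((((T.map (Wr.Hom.g φ j k hjk)).app m).app c).app l) := inferInstance
    exact (isIso_iff_bijective _).mp this

variable (T : Fr C)

theorem mem_range_inertV {θ θ' : Wr C} {φ : θ ⟶ θ'} {a : ℕ} (h : Inert φ a)
    (m : SimplexCategory) (η : (Wr C)ᵒᵖ) (k : SimplexCategoryᵒᵖ)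
    (u : VS (fun i => (T.obj (θ'.obj i)).obj m) η.unop k) :
    (show (((((VFr T).obj θ').obj m)).obj η).obj k from u) ∈
      (Sb.range (((VFr T).map φ).app m)).mem η k ↔
      ∀ t, a ≤ (u.f t).val ∧ (u.f t).val ≤ a + θ.len :=
  (inV_of_inert T h m).mem_range η k u

theorem mono_inertV {θ θ' : Wr C} {φ : θ ⟶ θ'} {a : ℕ} (h : Inert φ a)
    (m : SimplexCategory) (η : (Wr C)ᵒᵖ) : Mono ((((VFr T).map φ).app m).app η) :=
  (inV_of_inert T h m).mono η

theorem inter_VFr {r : ℕ} (c : Fin (r + 1) → C) (m : SimplexCategory) :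
    Sb.range (((VFr T).map (initMap c)).app m) ⊓ Sb.range (((VFr T).map (lastMap' c)).app m) ≤
      Sb.range (((VFr T).map (vtx ⟨r + 1, c⟩ (Fin.last r).castSucc)).app m) := by
  rintro η k (z : VS (fun i : Fin (r + 1) => (T.obj (c i)).obj m) η.unop k) ⟨h1, h2⟩
  have h1' := (mem_range_inertV T (inert_init c) m η k z).1 h1
  have h2' := (mem_range_inertV T (inert_last c) m η k z).1 h2
  refine (mem_range_inertV T (inert_vtx (⟨r + 1, c⟩ : Wr C) (Fin.last r).castSucc) m η k z).2
    fun t => ?_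
  have e1 := h1' t
  have e2 := h2' t
  change 0 ≤ _ ∧ _ ≤ 0 + r at e1
  change r ≤ _ ∧ _ ≤ r + 1 at e2
  change r ≤ _ ∧ _ ≤ r + 0
  omega

theorem disj_VFr (c : C) (m : SimplexCategory) :
    Sb.range (((VFr T).map (vtx (seg c) 0)).app m) ⊓
      Sb.range (((VFr T).map (vtx (seg c) 1)).app m) = ⊥ := by
  refine le_antisymm ?_ bot_le
  rintro η k (z : VS (fun i : Fin 1 => (T.obj c).obj m) η.unop k) ⟨h1, h2⟩
  have h1' := (mem_range_inertV T (inert_vtx (seg c) 0) m η k z).1 h1 0
  have h2' := (mem_range_inertV T (inert_vtx (seg c) 1) m η k z).1 h2 0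
  change 0 ≤ _ ∧ _ ≤ 0 + 0 at h1'
  change 1 ≤ _ ∧ _ ≤ 1 + 0 at h2'
  omega

theorem binT_VFr {r : ℕ} (c : Fin (r + 1) → C) (m : SimplexCategory) :
    binT (VFr T) c m =
      vface (fun i : Fin (r + 1) => (T.obj (c i)).obj m)
          (Finset.univ.filter (· ≤ (Fin.last r).castSucc)) ⊔
        vface (fun i : Fin (r + 1) => (T.obj (c i)).obj m)
          (Finset.univ.filter ((Fin.last r).castSucc ≤ ·)) := by
  refine Sb.ext (funext fun η => funext fun k => Set.ext
    fun (z : VS (fun i : Fin (r + 1) => (T.obj (c i)).obj m) η.unop k) => ?_)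
  refine (or_congr (mem_range_inertV T (inert_init c) m η k z)
    (mem_range_inertV T (inert_last c) m η k z)).trans ?_
  refine or_congr (forall_congr' fun t => ?_) (forall_congr' fun t => ?_)
  · rw [Finset.mem_filter]
    change 0 ≤ _ ∧ _ ≤ 0 + r ↔ _
    rw [Fin.le_def, Fin.val_castSucc, Fin.val_last]
    simp
  · have := (z.f t).isLt
    rw [Finset.mem_filter]
    change r ≤ _ ∧ _ ≤ r + 1 ↔ _
    rw [Fin.le_def, Fin.val_castSucc, Fin.val_last]
    simp
    omega

end

end Pool.Agent.Helper37.FL2
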